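import Pool.Agent.H15.IX.TF

/-!
# idx_modules, row KPE: finite extensions of degree prime to `p` are contained in `Kp`
-/

set_option autoImplicit false

open Finset Pool.Agent.H15.IX

namespace Pool.Agent.H90.IXK

universe u

/-- with a uniformizer which is a root of `t`, the field is generated by the uniformizer -/
theorem mem_of_unif {k : Type u} [Field k]
    {Ω : Type u} [Field Ω] [Algebra (LaurentSeries k) Ω]
    (E F : IntermediateField (LaurentSeries k) Ω) (m : ℕ)
    (e : E ≃+* LaurentSeries k)
    (hb : ∀ b : PowerSeries k, ∃ c : ℕ → PowerSeries k, e.symm (b : LaurentSeries k) =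
      ∑ i ∈ range m, e.symm (HahnSeries.single 1 1) ^ i *
          algebraMap (LaurentSeries k) E (c i : LaurentSeries k))
    (hs : ((e.symm (HahnSeries.single 1 1) : E) : Ω) ∈ F) : E ≤ F := by
  intro x hx
  have h1 := LaurentSeries.single_order_mul_powerSeriesPart (e ⟨x, hx⟩)
  have h2 := congrArg e.symm h1
  rw [e.symm_apply_apply, map_mul, RatFunc.single_zpow, map_zpow₀] at h2
  obtain ⟨c, hc⟩ := hb (e ⟨x, hx⟩).powerSeriesPart
  rw [hc] at h2
  have h3 := congrArg (algebraMap E Ω) h2
  rw [map_mul, map_zpow₀, map_sum] at h3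
  have h4 : algebraMap E Ω ⟨x, hx⟩ = x := rfl
  rw [h4] at h3
  rw [← h3]
  refine mul_mem (zpow_mem hs _) (sum_mem fun i _ => ?_)
  rw [map_mul, map_pow]
  refine mul_mem (pow_mem hs _) ?_
  exact F.algebraMap_mem _

theorem pf_KPE (hPUI : T_PUI.{u}) : T_KPE.{u} := by
  intro k _ _ _ p hp E _ hE
  obtain ⟨e, he, hb⟩ := hPUI k E
  refine mem_of_unif E (Kp k p) _ e hb ?_
  apply IntermediateField.subset_adjoin
  refine ⟨Module.finrank (LaurentSeries k) E, hE, ?_⟩
  have hsm : (e.symm (HahnSeries.single 1 1)) ^ Module.finrank (LaurentSeries k) E =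
      algebraMap (LaurentSeries k) E (HahnSeries.single 1 1) := by
    apply e.injective
    rw [map_pow, e.apply_symm_apply, he]
  have h2 := congrArg (algebraMap E (AlgebraicClosure (LaurentSeries k))) hsm
  rw [map_pow] at h2
  exact h2

end Pool.Agent.H90.IXK
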