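import Pool.Agent.H15.IX.TF

/-!
# idx_modules, row KPF: finite subextensions of `Kp` have degree prime to `p`
-/

set_option autoImplicit false

open Finset Pool.Agent.H15.IX

namespace Pool.Agent.H90.IXK

universe u

/-- roots of unity of an extension of the field of Laurent series are constants -/
theorem root_const {k : Type u} [Field k] [IsAlgClosed k] [CharZero k]
    {Ω : Type u} [Field Ω] [Algebra (LaurentSeries k) Ω] (m : ℕ) (hm : m ≠ 0) (ζ : Ω)
    (hζ : ζ ^ m = 1) : ∃ c : LaurentSeries k, algebraMap (LaurentSeries k) Ω c = ζ := by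
  classical
  have hne : (m : k) ≠ 0 := Nat.cast_ne_zero.2 hm
  have : NeZero (m : k) := ⟨hne⟩
  obtain ⟨μ, hμ⟩ : ∃ μ : k, IsPrimitiveRoot μ m := HasEnoughRootsOfUnity.exists_primitiveRoot k m
  set f : k →+* Ω := (algebraMap (LaurentSeries k) Ω).comp (algebraMap k (LaurentSeries k)) with hf
  have h1 : IsPrimitiveRoot (f μ) m := hμ.map_of_injective f.injective
  have : NeZero m := ⟨hm⟩
  obtain ⟨i, _, hi⟩ := h1.eq_pow_of_pow_eq_one hζ
  exact ⟨algebraMap k (LaurentSeries k) μ ^ i, by rw [map_pow, ← hi]; rfl⟩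

/-- every element of `Kp` lies in the field generated by one root of `t`, of order prime to `p` -/
theorem exists_order {k : Type u} [Field k] [IsAlgClosed k] [CharZero k] (p : ℕ) (hp : p.Prime)
    (x : AlgebraicClosure (LaurentSeries k)) (hx : x ∈ Kp k p) :
    ∃ m : ℕ, ¬ p ∣ m ∧ ∀ s : AlgebraicClosure (LaurentSeries k),
      s ^ m = algebraMap (LaurentSeries k) (AlgebraicClosure (LaurentSeries k))
        (HahnSeries.single 1 1) → x ∈ IntermediateField.adjoin (LaurentSeries k) {s} := by
  have hpp : ∀ a b : ℕ, ¬ p ∣ a → ¬ p ∣ b → ¬ p ∣ a * b := by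
    intro a b ha hb h
    rcases hp.dvd_mul.1 h with h | h
    · exact ha h
    · exact hb h
  have hle : ∀ (s : AlgebraicClosure (LaurentSeries k)) (i : ℕ),
      IntermediateField.adjoin (LaurentSeries k) {s ^ i} ≤
        IntermediateField.adjoin (LaurentSeries k) {s} := by
    intro s i
    rw [IntermediateField.adjoin_simple_le_iff]
    exact pow_mem (IntermediateField.mem_adjoin_simple_self _ s) i
  have two : ∀ (x y : AlgebraicClosure (LaurentSeries k)),
      (∃ m : ℕ, ¬ p ∣ m ∧ ∀ s : AlgebraicClosure (LaurentSeries k),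
      s ^ m = algebraMap (LaurentSeries k) (AlgebraicClosure (LaurentSeries k))
        (HahnSeries.single 1 1) → x ∈ IntermediateField.adjoin (LaurentSeries k) {s}) →
      (∃ m : ℕ, ¬ p ∣ m ∧ ∀ s : AlgebraicClosure (LaurentSeries k),
      s ^ m = algebraMap (LaurentSeries k) (AlgebraicClosure (LaurentSeries k))
        (HahnSeries.single 1 1) → y ∈ IntermediateField.adjoin (LaurentSeries k) {s}) →
      ∃ m : ℕ, ¬ p ∣ m ∧ ∀ s : AlgebraicClosure (LaurentSeries k),
      s ^ m = algebraMap (LaurentSeries k) (AlgebraicClosure (LaurentSeries k))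
        (HahnSeries.single 1 1) → x ∈ IntermediateField.adjoin (LaurentSeries k) {s} ∧
          y ∈ IntermediateField.adjoin (LaurentSeries k) {s} := by
    rintro x y ⟨a, ha, hx⟩ ⟨b, hb, hy⟩
    refine ⟨a * b, hpp a b ha hb, fun s hs => ⟨?_, ?_⟩⟩
    · exact hle s b (hx (s ^ b) (by rw [← pow_mul, mul_comm b a, hs]))
    · exact hle s a (hy (s ^ a) (by rw [← pow_mul, hs]))
  refine IntermediateField.adjoin_induction (LaurentSeries k)
    (p := fun x _ => ∃ m : ℕ, ¬ p ∣ m ∧ ∀ s : AlgebraicClosure (LaurentSeries k),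
      s ^ m = algebraMap (LaurentSeries k) (AlgebraicClosure (LaurentSeries k))
        (HahnSeries.single 1 1) → x ∈ IntermediateField.adjoin (LaurentSeries k) {s})
    ?_ ?_ ?_ ?_ ?_ hx
  · rintro x ⟨m, hm, hxm⟩
    refine ⟨m, hm, fun s hs => ?_⟩
    have hm0 : m ≠ 0 := by rintro rfl; exact hm (dvd_zero p)
    have hs0 : s ≠ 0 := by
      rintro rfl
      rw [zero_pow hm0] at hs
      have := (algebraMap (LaurentSeries k) (AlgebraicClosure (LaurentSeries k))).injective
        (hs.symm.trans (map_zero _).symm)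
      exact one_ne_zero ((HahnSeries.single_eq_zero_iff (a := (1 : ℤ)) (r := (1 : k))).1 this)
    obtain ⟨c, hc⟩ := root_const (k := k) m hm0 (x / s) (by
      rw [div_pow, hxm, hs, div_self]
      rw [← hs]
      exact pow_ne_zero m hs0)
    have h1 : x = algebraMap (LaurentSeries k) (AlgebraicClosure (LaurentSeries k)) c * s := by
      rw [hc, div_mul_cancel₀ x hs0]
    rw [h1]
    exact mul_mem ((IntermediateField.adjoin _ _).algebraMap_mem c)
      (IntermediateField.mem_adjoin_simple_self _ s)
  · intro x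
    exact ⟨1, hp.one_lt.ne' ∘ Nat.dvd_one.1, fun s _ =>
      (IntermediateField.adjoin _ _).algebraMap_mem x⟩
  · intro x y _ _ h1 h2
    obtain ⟨m, hm, h⟩ := two x y h1 h2
    exact ⟨m, hm, fun s hs => add_mem (h s hs).1 (h s hs).2⟩
  · rintro x _ ⟨m, hm, h⟩
    exact ⟨m, hm, fun s hs => inv_mem (h s hs)⟩
  · intro x y _ _ h1 h2
    obtain ⟨m, hm, h⟩ := two x y h1 h2
    exact ⟨m, hm, fun s hs => mul_mem (h s hs).1 (h s hs).2⟩

/-- the degree of the field generated by a root of `t` -/
theorem finrank_root (hPUI : T_PUI.{u}) {k : Type u} [Field k] [IsAlgClosed k] [CharZero k]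
    (m : ℕ) (hm : m ≠ 0) (s : AlgebraicClosure (LaurentSeries k))
    (hs : s ^ m = algebraMap (LaurentSeries k) (AlgebraicClosure (LaurentSeries k))
        (HahnSeries.single 1 1)) :
    Module.finrank (LaurentSeries k) (IntermediateField.adjoin (LaurentSeries k) {s}) = m := by
  have hint : IsIntegral (LaurentSeries k) s := Algebra.IsIntegral.isIntegral s
  have : FiniteDimensional (LaurentSeries k) (IntermediateField.adjoin (LaurentSeries k) {s}) :=
    IntermediateField.adjoin.finiteDimensional hint
  set L := IntermediateField.adjoin (LaurentSeries k) {s} with hL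
  obtain ⟨e, he, _⟩ := hPUI k L
  set s' : L := ⟨s, IntermediateField.mem_adjoin_simple_self _ s⟩ with hs'
  have h1 : s' ^ m = algebraMap (LaurentSeries k) L (HahnSeries.single 1 1) := by
    apply Subtype.ext
    exact hs
  have h2 := congrArg (fun z => (e z).order) h1
  simp only [map_pow, he, HahnSeries.order_pow] at h2
  rw [HahnSeries.order_single one_ne_zero, nsmul_eq_mul, nsmul_eq_mul, mul_one] at h2
  have hle : Module.finrank (LaurentSeries k) L ≤ m := by
    rw [hL, IntermediateField.adjoin.finrank hint]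
    have h3 : (Polynomial.X ^ m - Polynomial.C (HahnSeries.single 1 1 : LaurentSeries k)).natDegree
        = m := Polynomial.natDegree_X_pow_sub_C
    rw [← h3]
    refine Polynomial.natDegree_le_of_dvd (minpoly.dvd _ _ ?_)
      (Polynomial.X_pow_sub_C_ne_zero (Nat.pos_of_ne_zero hm) _)
    rw [map_sub, Polynomial.aeval_X_pow, Polynomial.aeval_C, hs, sub_self]
  have hpos : 0 < Module.finrank (LaurentSeries k) L := Module.finrank_pos
  refine le_antisymm hle ?_
  have h4 : (m : ℤ) ∣ (Module.finrank (LaurentSeries k) L : ℤ) := ⟨_, h2.symm⟩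
  exact Nat.le_of_dvd hpos (Int.natCast_dvd_natCast.1 h4)

theorem pf_KPF (hPUI : T_PUI.{u}) : T_KPF.{u} := by
  intro k _ _ _ p hp E _ hE hdvd
  -- a common order
  have hcom : ∀ (T : Finset E), ∃ m : ℕ, ¬ p ∣ m ∧ ∀ s : AlgebraicClosure (LaurentSeries k),
      s ^ m = algebraMap (LaurentSeries k) (AlgebraicClosure (LaurentSeries k))
        (HahnSeries.single 1 1) → ∀ x ∈ T, (x : AlgebraicClosure (LaurentSeries k)) ∈
          IntermediateField.adjoin (LaurentSeries k) {s} := by
    classical
    intro T
    induction T using Finset.induction_on with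
    | empty => exact ⟨1, hp.one_lt.ne' ∘ Nat.dvd_one.1, by simp⟩
    | insert a T _ ih =>
      obtain ⟨m, hm, h⟩ := ih
      obtain ⟨b, hb, hxb⟩ := exists_order p hp (a : AlgebraicClosure (LaurentSeries k)) (hE a.2)
      have hle : ∀ (s : AlgebraicClosure (LaurentSeries k)) (i : ℕ),
          IntermediateField.adjoin (LaurentSeries k) {s ^ i} ≤
            IntermediateField.adjoin (LaurentSeries k) {s} := by
        intro s i
        rw [IntermediateField.adjoin_simple_le_iff]
        exact pow_mem (IntermediateField.mem_adjoin_simple_self _ s) i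
      refine ⟨b * m, fun h => (hp.dvd_mul.1 h).elim hb hm, fun s hs x hx => ?_⟩
      rcases Finset.mem_insert.1 hx with rfl | hx
      · exact hle s m (hxb (s ^ m) (by rw [← pow_mul, mul_comm m b, hs]))
      · exact hle s b (h (s ^ b) (by rw [← pow_mul, hs]) x hx)
  classical
  obtain ⟨m, hm, hT⟩ := hcom (Finset.univ.image (Module.finBasis (LaurentSeries k) E))
  have hm0 : m ≠ 0 := by rintro rfl; exact hm (dvd_zero p)
  obtain ⟨s, hs⟩ := IsAlgClosed.exists_pow_nat_eq
    (algebraMap (LaurentSeries k) (AlgebraicClosure (LaurentSeries k))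
        (HahnSeries.single 1 1)) (Nat.pos_of_ne_zero hm0)
  have hEs : E ≤ IntermediateField.adjoin (LaurentSeries k) {s} := by
    intro x hx
    have h1 := (Module.finBasis (LaurentSeries k) E).sum_repr ⟨x, hx⟩
    have h2 := congrArg (algebraMap E (AlgebraicClosure (LaurentSeries k))) h1
    rw [map_sum] at h2
    have h4 : algebraMap E (AlgebraicClosure (LaurentSeries k)) ⟨x, hx⟩ = x := rfl
    rw [h4] at h2
    rw [← h2]
    refine sum_mem fun i _ => ?_
    rw [Algebra.smul_def, map_mul]
    refine mul_mem ((IntermediateField.adjoin _ _).algebraMap_mem _) ?_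
    exact hT s hs _ (Finset.mem_image_of_mem _ (Finset.mem_univ i))
  have hint : IsIntegral (LaurentSeries k) s := Algebra.IsIntegral.isIntegral s
  have hfr := finrank_root hPUI m hm0 s hs
  set L := IntermediateField.adjoin (LaurentSeries k) {s} with hL
  letI : Algebra E L := (IntermediateField.inclusion hEs).toRingHom.toAlgebra
  haveI : IsScalarTower (LaurentSeries k) E L := IsScalarTower.of_algebraMap_eq fun _ => rfl
  have h5 := Module.finrank_mul_finrank (LaurentSeries k) E L
  rw [hfr] at h5
  exact hm (h5 ▸ (hdvd.trans (dvd_mul_right _ _)))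

end Pool.Agent.H90.IXK
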