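import Pool.Agent.H15.IX.TF

/-!
# idx_modules, row RKP: R-equivalence over `Kp`
-/

set_option autoImplicit false

open Finset Pool.Agent.H15.IX
open MvPolynomial Pool.Agent.H13.RE Pool.Agent.H17.IQ

namespace Pool.Agent.H90.IXK

universe u

/-- evaluation of a system of polynomials commutes with a ring homomorphism -/
theorem map_aeval_poly {K L : Type u} [Field K] [Field L] (g : K →+* L) {N : ℕ}
    (c : Fin N → Polynomial K) (q : MvPolynomial (Fin N) K) :
    aeval (fun j => (c j).map g) (MvPolynomial.map g q) = (aeval c q).map g := by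
  rw [aeval_def, eval₂_map, ← Polynomial.coe_mapRingHom, map_aeval]
  congr 1
  ext a
  simp

/-- R-equivalence is preserved by homomorphisms of fields -/
theorem re_map {K L : Type u} [Field K] [Field L] (g : K →+* L) {N s : ℕ}
    (F : Fin s → MvPolynomial (Fin N) K) (x y : Fin N → K) (h : RE [] F x y) :
    RE [] (fun l => MvPolynomial.map g (F l)) (fun j => g (x j)) (fun j => g (y j)) := by
  have hpt : ∀ a : Fin N → K, Pt [] F a →
      Pt [] (fun l => MvPolynomial.map g (F l)) (fun j => g (a j)) := by
    rintro a ⟨h0, _, h2⟩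
    refine ⟨?_, by simp, fun i => ?_⟩
    · intro h3
      apply h0
      funext j
      have h4 := congrFun h3 j
      exact g.injective (by rw [h4]; simp)
    · have h5 := congrArg g (h2 i)
      rw [map_zero] at h5
      rw [← h5, eval_map]
      exact (MvPolynomial.eval₂_comp_left g (RingHom.id K) a (F i)).symm ▸ rfl
  unfold RE at h ⊢
  induction h with
  | rel a b hab =>
    obtain ⟨ha, hb, c, _, hc, ⟨α, hα, h0⟩, β, hβ, h1⟩ := hab
    refine Relation.EqvGen.rel _ _ ⟨hpt a ha, hpt b hb, fun j => (c j).map g, by simp,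
      fun i => ?_, ⟨g α, ?_, ?_⟩, g β, ?_, ?_⟩
    · rw [map_aeval_poly, hc i, Polynomial.map_zero]
    · exact fun h => hα ((map_eq_zero g).1 h)
    · funext j
      have := congrFun h0 j
      simp only [Pi.smul_apply, smul_eq_mul] at this ⊢
      rw [Polynomial.eval_zero_map, this, map_mul]
    · exact fun h => hβ ((map_eq_zero g).1 h)
    · funext j
      have := congrFun h1 j
      simp only [Pi.smul_apply, smul_eq_mul] at this ⊢
      rw [Polynomial.eval_one_map, this, map_mul]
  | refl a => exact Relation.EqvGen.refl _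
  | symm a b _ ih => exact Relation.EqvGen.symm _ _ ih
  | trans a b c _ _ ih1 ih2 => exact Relation.EqvGen.trans _ _ _ ih1 ih2

/-- descent to a finite extension, abstract form -/
theorem desc {K Ω : Type u} [Field K] [Field Ω] [Algebra K Ω] [Algebra.IsAlgebraic K Ω]
    (P : IntermediateField K Ω) {n s : ℕ} (F : Fin s → MvPolynomial (Fin (n + 1)) P)
    (x y : Fin (n + 1) → P) : ∃ (E : IntermediateField K Ω) (_ : FiniteDimensional K E)
      (hEP : E ≤ P) (G : Fin s → MvPolynomial (Fin (n + 1)) E) (x1 y1 : Fin (n + 1) → E),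
      (∀ l, MvPolynomial.map (IntermediateField.inclusion hEP).toRingHom (G l) = F l) ∧
      (∀ j, (IntermediateField.inclusion hEP) (x1 j) = x j) ∧
      (∀ j, (IntermediateField.inclusion hEP) (y1 j) = y j) := by
  classical
  obtain ⟨S, hS1, hS2, hS3⟩ : ∃ S : Finset P, (∀ l m, m ∈ (F l).support → (F l).coeff m ∈ S) ∧
      (∀ j, x j ∈ S) ∧ ∀ j, y j ∈ S := by
    refine ⟨(Finset.univ.biUnion fun l => (F l).support.image fun m => (F l).coeff m) ∪
      (Finset.univ.image x ∪ Finset.univ.image y), fun l m hm => ?_, fun j => ?_, fun j => ?_⟩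
    · refine Finset.mem_union_left _ (Finset.mem_biUnion.2 ⟨l, Finset.mem_univ l, ?_⟩)
      exact Finset.mem_image_of_mem _ hm
    · exact Finset.mem_union_right _ (Finset.mem_union_left _
        (Finset.mem_image_of_mem x (Finset.mem_univ j)))
    · exact Finset.mem_union_right _ (Finset.mem_union_right _
        (Finset.mem_image_of_mem y (Finset.mem_univ j)))
  obtain ⟨E, hfin, hEP, hmem⟩ : ∃ (E : IntermediateField K Ω) (_ : FiniteDimensional K E)
      (_ : E ≤ P), ∀ z ∈ S, (z : Ω) ∈ E := by
    refine ⟨IntermediateField.adjoin K ((fun z : P => (z : Ω)) '' (S : Set P)), ?_, ?_,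
      fun z hz => IntermediateField.subset_adjoin _ _ ⟨z, hz, rfl⟩⟩
    · have : Finite ((fun z : P => (z : Ω)) '' (S : Set P)) :=
        (S.finite_toSet.image _).to_subtype
      exact IntermediateField.finiteDimensional_adjoin fun z _ => Algebra.IsIntegral.isIntegral z
    · rw [IntermediateField.adjoin_le_iff]
      rintro _ ⟨z, _, rfl⟩
      exact z.2
  have hlift : ∀ z ∈ S, ∃ w : E, (IntermediateField.inclusion hEP) w = z :=
    fun z hz => ⟨⟨z, hmem z hz⟩, rfl⟩
  have hF1 : ∀ l, ∃ G : MvPolynomial (Fin (n + 1)) E,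
      MvPolynomial.map (IntermediateField.inclusion hEP).toRingHom G = F l := by
    intro l
    have h := (MvPolynomial.mem_range_map_iff_coeffs_subset
      (f := (IntermediateField.inclusion hEP).toRingHom) (x := F l)).2 (by
      intro z hz
      obtain ⟨m, hm, rfl⟩ := MvPolynomial.mem_coeffs_iff.1 (Finset.mem_coe.1 hz)
      obtain ⟨w, hw⟩ := hlift _ (hS1 l m hm)
      exact ⟨w, hw⟩)
    obtain ⟨G, hG⟩ := h
    exact ⟨G, hG⟩
  choose G hG using hF1
  choose x1 hx1 using fun j => hlift _ (hS2 j)
  choose y1 hy1 using fun j => hlift _ (hS3 j)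
  exact ⟨E, hfin, hEP, G, x1, y1, hG, hx1, hy1⟩

/-- embedding a finite extension in a subfield, abstract form -/
theorem embed {K Ω : Type u} [Field K] [Field Ω] [Algebra K Ω] [IsAlgClosed Ω]
    (P E : IntermediateField K Ω) (p : ℕ) [FiniteDimensional K E] (hp : p.Prime) (hEP : E ≤ P)
    (h1 : ∀ (E : IntermediateField K Ω) [FiniteDimensional K E], ¬ p ∣ Module.finrank K E →
      E ≤ P) (h2 : ¬ p ∣ Module.finrank K E)
    (K' : Type u) [Field K'] [Algebra E K'] [FiniteDimensional E K']
    (h3 : ¬ p ∣ Module.finrank E K') :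
    ∃ g : K' →+* P, ∀ z : E, g (algebraMap E K' z) = IntermediateField.inclusion hEP z := by
  let f : K' →ₐ[E] Ω := IsAlgClosed.lift
  letI : Algebra K K' := ((algebraMap E K').comp (algebraMap K E)).toAlgebra
  haveI : IsScalarTower K E K' := IsScalarTower.of_algebraMap_eq fun _ => rfl
  let f1 : K' →ₐ[K] Ω := f.restrictScalars K
  haveI hfd : FiniteDimensional K K' := FiniteDimensional.trans _ E K'
  have heq := (AlgEquiv.ofInjectiveField f1).toLinearEquiv
  haveI : FiniteDimensional K f1.fieldRange := Module.Finite.equiv heq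
  have hfr : Module.finrank K f1.fieldRange = Module.finrank K K' := heq.finrank_eq.symm
  have hdeg : ¬ p ∣ Module.finrank K f1.fieldRange := by
    rw [hfr, ← Module.finrank_mul_finrank K E K']
    exact fun h => (hp.dvd_mul.1 h).elim h2 h3
  have hle := h1 f1.fieldRange hdeg
  let g : K' →+* P :=
    { toFun := fun z => ⟨f z, hle ⟨z, rfl⟩⟩
      map_one' := Subtype.ext (map_one f)
      map_mul' := fun a b => Subtype.ext (map_mul f a b)
      map_zero' := Subtype.ext (map_zero f)
      map_add' := fun a b => Subtype.ext (map_add f a b) }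
  exact ⟨g, fun z => Subtype.ext (f.commutes z)⟩

/-- a homogeneous system comes from a homogeneous system -/
theorem eval_desc {E P : Type u} [Field E] [Field P] (ι : E →+* P) {N : ℕ}
    (G : MvPolynomial (Fin N) E) (a : Fin N → E)
    (h : eval (fun j => ι (a j)) (MvPolynomial.map ι G) = 0) : eval a G = 0 := by
  apply ι.injective
  rw [map_zero, ← h, eval_map]
  have := MvPolynomial.eval₂_comp_left ι (RingHom.id E) a G
  rw [RingHom.comp_id] at this
  exact this

/-- R-equivalence over a union of finite extensions, abstract form -/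
theorem abs_rkp {K Ω : Type u} [Field K] [Field Ω] [Algebra K Ω] [Algebra.IsAlgebraic K Ω]
    [IsAlgClosed Ω] (P : IntermediateField K Ω) (p : ℕ) (hp : p.Prime)
    (h1 : ∀ (E : IntermediateField K Ω) [FiniteDimensional K E], ¬ p ∣ Module.finrank K E →
      E ≤ P)
    (h2 : ∀ (E : IntermediateField K Ω) [FiniteDimensional K E], E ≤ P →
      ¬ p ∣ Module.finrank K E) {n s : ℕ} (d : Fin s → ℕ)
    (hC : ∀ (E : IntermediateField K Ω) [FiniteDimensional K E]
      (F : Fin s → MvPolynomial (Fin (n + 1)) E) (x y : Fin (n + 1) → E),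
      (∀ l, (F l).IsHomogeneous (d l)) → x ≠ 0 → y ≠ 0 →
      (∀ l, eval x (F l) = 0) → (∀ l, eval y (F l) = 0) →
      ∃ (K' : Type u) (_ : Field K') (_ : Algebra E K') (_ : FiniteDimensional E K'),
        ¬ p ∣ Module.finrank E K' ∧
        RE [] (fun l => MvPolynomial.map (algebraMap E K') (F l))
          (fun v => algebraMap E K' (x v)) (fun v => algebraMap E K' (y v)))
    (F : Fin s → MvPolynomial (Fin (n + 1)) P) (x y : Fin (n + 1) → P)
    (hF : ∀ l, (F l).IsHomogeneous (d l)) (hx : x ≠ 0) (hy : y ≠ 0)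
    (hxF : ∀ l, eval x (F l) = 0) (hyF : ∀ l, eval y (F l) = 0) : RE [] F x y := by
  obtain ⟨E, hfin, hEP, G, x1, y1, hG, hx1, hy1⟩ := desc P F x y
  have hx0 : x1 ≠ 0 := by
    rintro rfl
    apply hx
    funext j
    rw [← hx1 j]
    exact map_zero _
  have hy0 : y1 ≠ 0 := by
    rintro rfl
    apply hy
    funext j
    rw [← hy1 j]
    exact map_zero _
  obtain ⟨K', _, _, _, hK', hRE⟩ := hC E G x1 y1
    (fun l => MvPolynomial.IsHomogeneous.of_map
      (f := (IntermediateField.inclusion hEP).toRingHom)
      (IntermediateField.inclusion hEP).toRingHom.injective (by rw [hG l]; exact hF l))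
    hx0 hy0
    (fun l => eval_desc (IntermediateField.inclusion hEP).toRingHom (G l) x1 (by
      rw [hG l]
      have : (fun j => (IntermediateField.inclusion hEP).toRingHom (x1 j)) = x := funext hx1
      rw [this]
      exact hxF l))
    (fun l => eval_desc (IntermediateField.inclusion hEP).toRingHom (G l) y1 (by
      rw [hG l]
      have : (fun j => (IntermediateField.inclusion hEP).toRingHom (y1 j)) = y := funext hy1
      rw [this]
      exact hyF l))
  obtain ⟨g, hg⟩ := embed P E p hp hEP h1 (h2 E hEP) K' hK'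
  have hfinal := re_map g _ _ _ hRE
  have h1 : (fun l => MvPolynomial.map g (MvPolynomial.map (algebraMap E K') (G l))) = F := by
    funext l
    have hcomp : g.comp (algebraMap E K') = (IntermediateField.inclusion hEP).toRingHom :=
      RingHom.ext hg
    rw [MvPolynomial.map_map, hcomp, hG l]
  have h2 : (fun j => g (algebraMap E K' (x1 j))) = x := funext fun j => (hg _).trans (hx1 j)
  have h3 : (fun j => g (algebraMap E K' (y1 j))) = y := funext fun j => (hg _).trans (hy1 j)
  rw [h1, h2, h3] at hfinal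
  exact hfinal

theorem pf_RKP (hCOF : T_COF.{u}) (hPUI : T_PUI.{u}) (hKPE : T_KPE.{u}) (hKPF : T_KPF.{u}) :
    T_RKP.{u} := by
  intro k _ _ _ n s p d F x y hp hd hF hsum hx hy hxF hyF
  refine abs_rkp (Kp k p) p hp (fun E _ h => hKPE k p hp E h) (fun E _ h => hKPF k p hp E h) d
    (fun E _ G x y hG hx hy hxG hyG => ?_) F x y hF hx hy hxF hyF
  obtain ⟨e, _, _⟩ := hPUI k E
  exact hCOF k E e n s p d G x y hp hd hG hsum hx hy hxG hyG

end Pool.Agent.H90.IXK
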